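import Mathlib
import Pool.Agent.H388SL.DobB

/-!
# The energy inequality with the discriminant

The discriminant of a power `α ^ m` of an algebraic integer is divisible by that of `α`, so it can
be kept in the energy inequality behind Dobrowolski's theorem.
-/

set_option autoImplicit false

open Finset Polynomial Module

namespace Pool.Agent.Y399.RD

open Pool.Agent.H388SL

variable {K : Type*} [Field K] [NumberField K]

/-- `f'(β)` for the minimal polynomial `f` of `β` -/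
noncomputable def dder (β : K) : K := aeval β (derivative (minpoly ℤ β))

lemma map_dder [DecidableEq (K →ₐ[ℚ] ℂ)] {β : K} (hβ : IsIntegral ℤ β) (hc : CInj β)
    (σ : K →ₐ[ℚ] ℂ) : σ (dder β) = ∏ τ ∈ Finset.univ.erase σ, (σ β - τ β) := by
  unfold dder
  rw [map_aevalZ]
  have h1 : (derivative (minpoly ℤ β)).map (algebraMap ℤ ℂ) =
      derivative (∏ τ : K →ₐ[ℚ] ℂ, (X - C (τ β))) := by
    rw [← Polynomial.derivative_map, ← minpoly_map_eq hc,
      minpoly.isIntegrallyClosed_eq_field_fractions' ℚ hβ, Polynomial.map_map]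
    rfl
  rw [Polynomial.aeval_def, ← Polynomial.eval_map, h1, Polynomial.derivative_prod_finset,
    Polynomial.eval_finsetSum]
  rw [Finset.sum_eq_single σ]
  · rw [Polynomial.eval_mul, Polynomial.eval_prod]
    simp
  · intro τ _ hτ
    rw [Polynomial.eval_mul, Polynomial.eval_prod]
    rw [Finset.prod_eq_zero (i := σ)]
    · simp
    · simp [Ne.symm hτ]
    · simp
  · simp

lemma dder_ne_zero {β : K} (hβ : IsIntegral ℤ β) (hc : CInj β) : dder β ≠ 0 := by
  classical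
  intro h0
  obtain ⟨σ⟩ : Nonempty (K →ₐ[ℚ] ℂ) := ⟨IsAlgClosed.lift⟩
  have h1 := map_dder hβ hc σ
  rw [h0, map_zero] at h1
  obtain ⟨τ, hτ, hτ2⟩ := Finset.prod_eq_zero_iff.mp h1.symm
  exact (Finset.ne_of_mem_erase hτ) (hc (sub_eq_zero.mp hτ2)).symm

/-- the logarithm of the absolute value of the discriminant of (the minimal polynomial of) `β` -/
noncomputable def LD (β : K) : ℝ := ∑ σ : K →ₐ[ℚ] ℂ, Real.log ‖σ (dder β)‖

/-- the discriminant of `β` divides that of `β ^ m` -/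
lemma LD_le_pow {β : K} (hβ : IsIntegral ℤ β) (hc : CInj β) {m : ℕ} (hcm : CInj (β ^ m)) :
    LD β ≤ LD (β ^ m) := by
  classical
  have hv0 := dder_ne_zero hβ hc
  have hw0 := dder_ne_zero (hβ.pow m) hcm
  set v := dder β with hv
  set w := dder (β ^ m) with hw
  have hσ : ∀ σ : K →ₐ[ℚ] ℂ, σ (w / v) =
      ∏ τ ∈ Finset.univ.erase σ, ∑ i ∈ Finset.range m, (σ β) ^ i * (τ β) ^ (m - 1 - i) := by
    intro σ
    rw [map_div₀, hv, hw, map_dder hβ hc, map_dder (hβ.pow m) hcm, ← Finset.prod_div_distrib]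
    refine Finset.prod_congr rfl fun τ hτ => ?_
    have hne : σ β - τ β ≠ 0 := by
      intro h
      exact (Finset.ne_of_mem_erase hτ) (hc (sub_eq_zero.mp h)).symm
    rw [div_eq_iff hne, map_pow, map_pow, ← (Commute.all (σ β) (τ β)).geom_sum₂_mul]
  have hint : IsIntegral ℤ (w / v) := by
    obtain ⟨σ⟩ : Nonempty (K →ₐ[ℚ] ℂ) := ⟨IsAlgClosed.lift⟩
    have h1 : IsIntegral ℤ (σ (w / v)) := by
      rw [hσ]
      refine IsIntegral.prod _ fun τ _ => IsIntegral.sum _ fun i _ => ?_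
      have e1 : IsIntegral ℤ (σ β) := hβ.map (σ.restrictScalars ℤ)
      have e2 : IsIntegral ℤ (τ β) := hβ.map (τ.restrictScalars ℤ)
      exact (e1.pow i).mul (e2.pow _)
    exact (isIntegral_algHom_iff (σ.restrictScalars ℤ) σ.injective).mp h1
  have hu0 : w / v ≠ 0 := div_ne_zero hw0 hv0
  have h1 := one_le_prod_norm hint hu0
  have h2 : 0 ≤ ∑ σ : K →ₐ[ℚ] ℂ, Real.log ‖σ (w / v)‖ := by
    rw [← Real.log_prod fun σ _ => norm_ne_zero_iff.mpr ((map_ne_zero σ).mpr hu0)]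
    exact Real.log_nonneg h1
  unfold LD
  have h3 : ∑ σ : K →ₐ[ℚ] ℂ, Real.log ‖σ w‖ =
      ∑ σ : K →ₐ[ℚ] ℂ, Real.log ‖σ v‖ + ∑ σ : K →ₐ[ℚ] ℂ, Real.log ‖σ (w / v)‖ := by
    rw [← Finset.sum_add_distrib]
    refine Finset.sum_congr rfl fun σ _ => ?_
    have e1 : ‖σ v‖ ≠ 0 := norm_ne_zero_iff.mpr ((map_ne_zero σ).mpr hv0)
    have e2 : ‖σ w‖ ≠ 0 := norm_ne_zero_iff.mpr ((map_ne_zero σ).mpr hw0)
    rw [map_div₀, norm_div, Real.log_div e2 e1]
    ring
  rw [← hv, ← hw, h3]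
  linarith

/-- the double sum over the pairs of conjugates -/
lemma sum_pairs [DecidableEq (K →ₐ[ℚ] ℂ)] {β : K} (hβ : IsIntegral ℤ β) (hc : CInj β) :
    ∑ σ : K →ₐ[ℚ] ℂ, ∑ τ ∈ Finset.univ.erase σ, Real.log ‖σ β - τ β‖ = LD β := by
  unfold LD
  refine Finset.sum_congr rfl fun σ _ => ?_
  rw [map_dder hβ hc, norm_prod, Real.log_prod]
  intro τ hτ h
  exact (Finset.ne_of_mem_erase hτ) (hc (sub_eq_zero.mp (norm_eq_zero.mp h))).symm

/-- the energy inequality applied to `α` and prime powers of `α`, with the discriminant -/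
theorem dob_disc {α : K} (hα : IsIntegral ℤ α) (h0 : α ≠ 0) (hroot : ∀ n : ℕ, 0 < n → α ^ n ≠ 1)
    (hc : CInj α) (P : Finset ℕ) (hP : ∀ p ∈ P, p.Prime) (hPc : ∀ p ∈ P, CInj (α ^ p))
    {A : ℝ} (hA : 0 ≤ A) {N : ℝ} (hN : 1 ≤ N) {Λ : ℝ} (hΛ : finrank ℚ K * Λ ≤ LD α) :
    2 * A * ∑ p ∈ P, Real.log p + (A ^ 2 + P.card) * Λ ≤
      2 * (A + P.card) * (A + ∑ p ∈ P, (p : ℝ)) * lam α
        + finrank ℚ K * (A + P.card) ^ 2 / N + (A ^ 2 + P.card) * Real.log N := by
  classical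
  set d := finrank ℚ K with hd
  have hd0 : 0 < d := finrank_pos
  have hcard : Fintype.card (K →ₐ[ℚ] ℂ) = d := AlgHom.card ℚ K ℂ
  have h1P : 1 ∉ P := fun h => Nat.not_prime_one (hP 1 h)
  set Q : Finset ℕ := insert 1 P with hQ
  have hQc : ∀ p ∈ Q, CInj (α ^ p) := by
    intro p hp
    rw [hQ, Finset.mem_insert] at hp
    rcases hp with rfl | hp
    · rw [pow_one]; exact hc
    · exact hPc p hp
  set x : ℕ × (K →ₐ[ℚ] ℂ) → ℝ := fun i => if i.1 = 1 then A else 1 with hx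
  set z : ℕ × (K →ₐ[ℚ] ℂ) → ℂ := fun i => i.2 (α ^ i.1) with hz
  set s : Finset (ℕ × (K →ₐ[ℚ] ℂ)) := Q ×ˢ Finset.univ with hs
  have hx0 : ∀ i ∈ s, 0 ≤ x i := by
    intro i _
    rw [hx]; dsimp only; split_ifs
    · exact hA
    · exact zero_le_one
  have hinj : ∀ i ∈ s, ∀ j ∈ s, i ≠ j → z i ≠ z j := by
    rintro ⟨p, σ⟩ hi ⟨q, τ⟩ hj hij
    rw [hs, Finset.mem_product] at hi hj
    by_cases hpq : p = q
    · subst hpq
      intro h
      have h' : σ = τ := hQc p hi.1 h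
      exact hij (by rw [h'])
    · exact conj_ne hα h0 hroot hpq (hQc p hi.1) (hQc q hj.1) σ τ
  have ht0 : 0 ≤ 1 - 1 / N := by
    rw [sub_nonneg, div_le_one (by linarith)]; exact hN
  have ht1 : 1 - 1 / N < 1 := by
    have : 0 < 1 / N := by positivity
    linarith
  have hE := energy s x hx0 z hinj ht0 ht1
  -- lower bound of the left side
  set E : ℕ → ℕ → ℝ := fun p q => ∑ σ : K →ₐ[ℚ] ℂ, ∑ τ : K →ₐ[ℚ] ℂ,
    (if ((p, σ) : ℕ × (K →ₐ[ℚ] ℂ)) = (q, τ) then 0 else x (p, σ) * x (q, τ) * Real.log ‖z (p, σ) - z (q, τ)‖)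
    with hEdef
  have hLHS : ∑ i ∈ s, ∑ j ∈ s, (if i = j then 0 else x i * x j * Real.log ‖z i - z j‖)
      = ∑ p ∈ Q, ∑ q ∈ Q, E p q := by
    rw [hs, Finset.sum_product]
    refine Finset.sum_congr rfl fun p _ => ?_
    rw [hEdef]
    dsimp only
    conv_rhs => rw [Finset.sum_comm]
    refine Finset.sum_congr rfl fun σ _ => ?_
    rw [Finset.sum_product]
  have hEdiag : ∀ p ∈ Q, (if p = 1 then A else 1 : ℝ) ^ 2 * (d * Λ) ≤ E p p := by
    intro p hp
    have h3 : E p p = (if p = 1 then A else 1 : ℝ) ^ 2 * LD (α ^ p) := by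
      rw [← sum_pairs (hα.pow p) (hQc p hp), hEdef]; dsimp only
      rw [Finset.mul_sum]
      refine Finset.sum_congr rfl fun σ _ => ?_
      rw [Finset.mul_sum, ← Finset.add_sum_erase _ _ (Finset.mem_univ σ), if_pos rfl, zero_add]
      refine Finset.sum_congr rfl fun τ hτ => ?_
      rw [if_neg]
      · rw [hx, hz]; dsimp only; ring
      · intro h
        exact (Finset.ne_of_mem_erase hτ) (Prod.ext_iff.mp h).2.symm
    rw [h3]
    exact mul_le_mul_of_nonneg_left (hΛ.trans (LD_le_pow hα hc (hQc p hp))) (sq_nonneg _)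
  have hEnn : ∀ p ∈ Q, ∀ q ∈ Q, p ≠ q → 0 ≤ E p q := by
    intro p hp q hq hpq
    have hxp : 0 ≤ (if p = 1 then A else 1 : ℝ) := by split_ifs; exacts [hA, zero_le_one]
    have hxq : 0 ≤ (if q = 1 then A else 1 : ℝ) := by split_ifs; exacts [hA, zero_le_one]
    have hne := conj_ne hα h0 hroot hpq (hQc p hp) (hQc q hq)
    have h1 := one_le_cross (hα.pow p) (hα.pow q) (hQc q hq) hne
    have h2 := Real.log_nonneg h1
    rw [Real.log_prod] at h2
    · have h3 : E p q = ((if p = 1 then A else 1 : ℝ) * (if q = 1 then A else 1 : ℝ)) *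
          ∑ σ : K →ₐ[ℚ] ℂ, Real.log (∏ τ : K →ₐ[ℚ] ℂ, ‖σ (α ^ p) - τ (α ^ q)‖) := by
        rw [hEdef]; dsimp only
        rw [Finset.mul_sum]
        refine Finset.sum_congr rfl fun σ _ => ?_
        rw [Real.log_prod, Finset.mul_sum]
        · refine Finset.sum_congr rfl fun τ hτ => ?_
          rw [if_neg]
          intro h
          exact hpq (Prod.ext_iff.mp h).1
        · intro τ hτ h
          exact hne σ τ (sub_eq_zero.mp (norm_eq_zero.mp h))
      rw [h3]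
      exact mul_nonneg (mul_nonneg hxp hxq) h2
    · intro σ _ h
      obtain ⟨τ, hτ, h⟩ := Finset.prod_eq_zero_iff.mp h
      exact hne σ τ (sub_eq_zero.mp (norm_eq_zero.mp h))
  have hE1 : ∀ p ∈ P, A * (d * Real.log p) ≤ E p 1 ∧ A * (d * Real.log p) ≤ E 1 p := by
    intro p hp
    have hpp := hP p hp
    have hp1 : p ≠ 1 := hpp.ne_one
    have hne' := conj_ne hα h0 hroot hp1 (hPc p hp) (by rw [pow_one]; exact hc)
    have hne : ∀ σ τ : K →ₐ[ℚ] ℂ, σ (α ^ p) ≠ τ α := by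
      intro σ τ
      have := hne' σ τ
      rwa [pow_one] at this
    have h1 := pow_le_frob hα hc p hpp hne
    have hp0 : (0:ℝ) < p := by exact_mod_cast hpp.pos
    have h2 := Real.log_le_log (by positivity) h1
    rw [Real.log_pow, Real.log_prod] at h2
    · have h3 : E p 1 = A * ∑ σ : K →ₐ[ℚ] ℂ, Real.log (∏ τ : K →ₐ[ℚ] ℂ, ‖σ (α ^ p) - τ α‖) := by
        rw [hEdef]; dsimp only
        rw [Finset.mul_sum]
        refine Finset.sum_congr rfl fun σ _ => ?_
        rw [Real.log_prod, Finset.mul_sum]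
        · refine Finset.sum_congr rfl fun τ hτ => ?_
          rw [if_neg, hx, hz]
          · dsimp only
            rw [if_neg hp1, if_pos rfl, one_mul, pow_one]
          · intro h
            exact hp1 (Prod.ext_iff.mp h).1
        · intro τ hτ h
          exact hne σ τ (sub_eq_zero.mp (norm_eq_zero.mp h))
      have h4 : E 1 p = E p 1 := by
        rw [hEdef]; dsimp only
        rw [Finset.sum_comm]
        refine Finset.sum_congr rfl fun σ _ => ?_
        refine Finset.sum_congr rfl fun τ _ => ?_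
        rw [if_neg, if_neg]
        · rw [norm_sub_rev]; ring
        · intro h
          exact hp1 (Prod.ext_iff.mp h).1
        · intro h
          exact hp1 (Prod.ext_iff.mp h).1.symm
      rw [h4, h3]
      exact ⟨mul_le_mul_of_nonneg_left h2 hA, mul_le_mul_of_nonneg_left h2 hA⟩
    · intro σ _ h
      obtain ⟨τ, hτ, h⟩ := Finset.prod_eq_zero_iff.mp h
      exact hne σ τ (sub_eq_zero.mp (norm_eq_zero.mp h))
  have hlow : 2 * A * d * ∑ p ∈ P, Real.log p + (A ^ 2 + P.card) * (d * Λ) ≤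
      ∑ p ∈ Q, ∑ q ∈ Q, E p q := by
    have e1 : ∑ p ∈ Q, ∑ q ∈ Q, E p q = (E 1 1 + ∑ q ∈ P, E 1 q) + ∑ p ∈ P, (E p 1 + ∑ q ∈ P, E p q) := by
      rw [hQ, Finset.sum_insert h1P, Finset.sum_insert h1P]
      congr 1
      refine Finset.sum_congr rfl fun p _ => ?_
      rw [Finset.sum_insert h1P]
    have m1 : (1:ℕ) ∈ Q := Finset.mem_insert_self _ _
    have mP : ∀ p ∈ P, p ∈ Q := fun p hp => Finset.mem_insert_of_mem hp
    have i1 : A ^ 2 * (d * Λ) ≤ E 1 1 := by
      have := hEdiag 1 m1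
      rwa [if_pos rfl] at this
    have i2 : ∑ p ∈ P, A * (d * Real.log p) ≤ ∑ q ∈ P, E 1 q :=
      Finset.sum_le_sum fun p hp => (hE1 p hp).2
    have i3 : ∑ p ∈ P, (A * (d * Real.log p) + d * Λ) ≤ ∑ p ∈ P, (E p 1 + ∑ q ∈ P, E p q) := by
      refine Finset.sum_le_sum fun p hp => ?_
      have h1 := (hE1 p hp).1
      have h2 : d * Λ ≤ ∑ q ∈ P, E p q := by
        rw [← Finset.add_sum_erase _ _ hp]
        have h3 : 0 ≤ ∑ q ∈ P.erase p, E p q := Finset.sum_nonneg fun q hq =>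
          hEnn p (mP p hp) q (mP q (Finset.mem_of_mem_erase hq)) (Finset.ne_of_mem_erase hq).symm
        have h4 := hEdiag p (mP p hp)
        rw [if_neg (hP p hp).ne_one, one_pow, one_mul] at h4
        linarith
      linarith
    have e2 : ∑ p ∈ P, A * (d * Real.log p) = A * d * ∑ p ∈ P, Real.log p := by
      rw [Finset.mul_sum]
      refine Finset.sum_congr rfl fun p _ => ?_
      ring
    rw [Finset.sum_add_distrib, Finset.sum_const, nsmul_eq_mul] at i3
    rw [e2] at i2 i3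
    rw [e1]
    linarith
  -- right side
  have r1 : ∑ i ∈ s, x i = d * (A + P.card) := by
    rw [hs, Finset.sum_product, hQ, Finset.sum_insert h1P]
    have : ∀ p ∈ P, ∑ σ : K →ₐ[ℚ] ℂ, x (p, σ) = d := by
      intro p hp
      simp [hx, (hP p hp).ne_one, hcard]
    rw [Finset.sum_congr rfl this, Finset.sum_const, nsmul_eq_mul]
    have h1 : ∑ σ : K →ₐ[ℚ] ℂ, x (1, σ) = d * A := by
      simp [hx, hcard]
    rw [h1]
    ring
  have r2 : ∑ i ∈ s, x i ^ 2 = d * (A ^ 2 + P.card) := by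
    rw [hs, Finset.sum_product, hQ, Finset.sum_insert h1P]
    have : ∀ p ∈ P, ∑ σ : K →ₐ[ℚ] ℂ, x (p, σ) ^ 2 = d := by
      intro p hp
      simp [hx, (hP p hp).ne_one, hcard]
    rw [Finset.sum_congr rfl this, Finset.sum_const, nsmul_eq_mul]
    have h1 : ∑ σ : K →ₐ[ℚ] ℂ, x (1, σ) ^ 2 = d * A ^ 2 := by
      simp [hx, hcard]
    rw [h1]
    ring
  have r3 : ∑ i ∈ s, x i * Real.log (max 1 ‖z i‖) = (A + ∑ p ∈ P, (p : ℝ)) * lam α := by
    rw [hs, Finset.sum_product, hQ, Finset.sum_insert h1P]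
    have : ∀ p ∈ P, ∑ σ : K →ₐ[ℚ] ℂ, x (p, σ) * Real.log (max 1 ‖z (p, σ)‖) = p * lam α := by
      intro p hp
      rw [← lam_pow, lam]
      refine Finset.sum_congr rfl fun σ _ => ?_
      simp [hx, hz, (hP p hp).ne_one]
    rw [Finset.sum_congr rfl this, ← Finset.sum_mul]
    have h1 : ∑ σ : K →ₐ[ℚ] ℂ, x (1, σ) * Real.log (max 1 ‖z (1, σ)‖) = A * lam α := by
      rw [lam, Finset.mul_sum]
      refine Finset.sum_congr rfl fun σ _ => ?_
      simp [hx, hz]
    rw [h1]; ring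
  rw [hLHS, r1, r2, r3] at hE
  have hN0 : 0 < N := by linarith
  have e1 : 1 / (1 - (1 - 1 / N)) = N := by
    field_simp; ring
  rw [e1] at hE
  -- bound for log (2 / (1 + t))
  have e2 : Real.log (2 / (1 + (1 - 1 / N))) ≤ 1 / N := by
    have h1 : 1 + (1 - 1 / N) = (2 * N - 1) / N := by field_simp; ring
    have h2 : 2 / (1 + (1 - 1 / N)) = 1 + 1 / (2 * N - 1) := by
      rw [h1]
      have : 2 * N - 1 ≠ 0 := by nlinarith
      field_simp; ring
    rw [h2]
    have h3 : 0 < 1 / (2 * N - 1) := by apply div_pos one_pos; nlinarith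
    have h4 := Real.log_le_sub_one_of_pos (show 0 < 1 + 1 / (2 * N - 1) by linarith)
    have h5 : 1 / (2 * N - 1) ≤ 1 / N := by
      apply one_div_le_one_div_of_le hN0; linarith
    linarith
  have h6 : 0 ≤ (1 - 1 / N) * ‖∑ i ∈ s, (x i : ℂ) * refl (z i)‖ ^ 2 := by positivity
  have h7 : ((d : ℝ) * (A + P.card)) ^ 2 * Real.log (2 / (1 + (1 - 1 / N))) ≤
      ((d : ℝ) * (A + P.card)) ^ 2 * (1 / N) := mul_le_mul_of_nonneg_left e2 (by positivity)
  have h8 : (d : ℝ) * (2 * A * ∑ p ∈ P, Real.log p + (A ^ 2 + P.card) * Λ) ≤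
      d * (2 * (A + P.card) * (A + ∑ p ∈ P, (p : ℝ)) * lam α
        + d * (A + P.card) ^ 2 / N + (A ^ 2 + P.card) * Real.log N) := by
    have e3 : (d : ℝ) * (2 * (A + P.card) * (A + ∑ p ∈ P, (p : ℝ)) * lam α
        + d * (A + P.card) ^ 2 / N + (A ^ 2 + P.card) * Real.log N) =
        2 * ((d : ℝ) * (A + P.card)) * ((A + ∑ p ∈ P, (p : ℝ)) * lam α) +
          ((d : ℝ) * (A + P.card)) ^ 2 * (1 / N) + (d * (A ^ 2 + P.card)) * Real.log N := by
      ring
    rw [e3]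
    nlinarith
  have hd' : (0:ℝ) < d := by exact_mod_cast hd0
  exact le_of_mul_le_mul_left h8 hd'

end Pool.Agent.Y399.RD
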