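import Mathlib
import Pool.Agent.Y399.RD.A
import Pool.Agent.H388SL.DobC

/-!
# Choice of the parameters
-/

set_option autoImplicit false

open Finset Polynomial Module

namespace Pool.Agent.Y399.RD

open Pool.Agent.H388SL

/-- the primes up to `Y` -/
def primesUpTo (Y : ℕ) : Finset ℕ := (Finset.Ioc 0 Y).filter Nat.Prime

lemma mem_primesUpTo {Y p : ℕ} (h : p ∈ primesUpTo Y) : p.Prime ∧ p ≤ Y := by
  rw [primesUpTo, Finset.mem_filter, Finset.mem_Ioc] at h
  exact ⟨h.2, h.1.2⟩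

lemma theta_eq (Y : ℕ) : Chebyshev.theta Y = ∑ p ∈ primesUpTo Y, Real.log p := by
  rw [Chebyshev.theta, Nat.floor_natCast]; rfl

lemma card_primesUpTo (Y : ℕ) : (primesUpTo Y).card = Nat.primeCounting Y := by
  rw [Nat.primeCounting, Nat.primeCounting', Nat.count_eq_card_filter_range]
  congr 1
  ext p
  rw [primesUpTo, Finset.mem_filter, Finset.mem_filter, Finset.mem_Ioc, Finset.mem_range]
  constructor
  · rintro ⟨⟨-, h⟩, h2⟩; exact ⟨by omega, h2⟩
  · rintro ⟨h, h2⟩; exact ⟨⟨h2.pos, by omega⟩, h2⟩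

/-- all the asymptotic facts needed -/
lemma exists_Y1 : ∃ Y1 : ℕ, 2 ≤ Y1 ∧ ∀ Y : ℕ, Y1 ≤ Y →
    (Y : ℝ) / 2 ≤ ∑ p ∈ primesUpTo Y, Real.log p ∧
    ((primesUpTo Y).card : ℝ) ≤ 4 * (Y / Real.log Y) ∧
    25600 ≤ (Y : ℝ) / Real.log Y ∧ 10 ≤ Real.log Y := by
  obtain ⟨Y0, hY01, hY0⟩ := exists_Y0
  have h1 : Filter.Tendsto (fun x : ℝ => Real.log x / x) Filter.atTop (nhds 0) := by
    have := Real.isLittleO_log_id_atTop
    have h2 := this.tendsto_div_nhds_zero
    simpa using h2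
  have h3 : ∀ᶠ x : ℝ in Filter.atTop, Real.log x / x < 1 / 25600 :=
    h1.eventually (gt_mem_nhds (by norm_num))
  have h4 : ∀ᶠ n : ℕ in Filter.atTop, Real.log (n : ℝ) / n < 1 / 25600 :=
    tendsto_natCast_atTop_atTop.eventually h3
  have h5 : ∀ᶠ n : ℕ in Filter.atTop, Real.log (Real.sqrt (n : ℝ)) / Real.sqrt n < 1 / 25600 :=
    (Real.tendsto_sqrt_atTop.comp tendsto_natCast_atTop_atTop).eventually h3
  have h6 : ∀ᶠ n : ℕ in Filter.atTop, (10 : ℝ) ≤ Real.log n :=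
    (Real.tendsto_log_atTop.comp tendsto_natCast_atTop_atTop).eventually_ge_atTop 10
  obtain ⟨m, hm⟩ := Filter.eventually_atTop.mp (h4.and (h5.and h6))
  refine ⟨max (max m Y0) 2, le_max_right _ _, ?_⟩
  intro Y hY
  have hYm : m ≤ Y := ((le_max_left m Y0).trans (le_max_left _ _)).trans hY
  have hYY0 : Y0 ≤ Y := ((le_max_right m Y0).trans (le_max_left _ _)).trans hY
  have hY2 : 2 ≤ Y := (le_max_right _ _).trans hY
  have hY2' : (2:ℝ) ≤ Y := by exact_mod_cast hY2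
  have hYpos : (0:ℝ) < Y := by linarith
  obtain ⟨a1, a2, a3⟩ := hm Y hYm
  have hlogpos : 0 < Real.log Y := by linarith
  refine ⟨?_, ?_, ?_, a3⟩
  · rw [← theta_eq]
    exact theta_half hY0 Y hYY0 (by omega)
  · rw [card_primesUpTo]
    have h7 := Chebyshev.pi_le_log4_mul_div (x := (Y:ℝ)) (by linarith)
    rw [Nat.floor_natCast] at h7
    have hs : Real.log (Real.sqrt Y) = Real.log Y / 2 := Real.log_sqrt hYpos.le
    rw [hs] at h7
    have hsq0 : 0 < Real.sqrt Y := Real.sqrt_pos.mpr hYpos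
    have hsq : Real.sqrt Y ≤ Y / Real.log Y := by
      rw [hs] at a2
      rw [div_lt_iff₀ hsq0] at a2
      rw [le_div_iff₀ hlogpos]
      have h8 : Real.log Y ≤ Real.sqrt Y := by linarith
      calc Real.sqrt Y * Real.log Y ≤ Real.sqrt Y * Real.sqrt Y :=
            mul_le_mul_of_nonneg_left h8 hsq0.le
        _ = Y := Real.mul_self_sqrt hYpos.le
    have hlog4 : Real.log 4 ≤ 3 / 2 := by
      have : Real.log 4 = 2 * Real.log 2 := by
        rw [show (4:ℝ) = 2 ^ 2 by norm_num, Real.log_pow]; norm_num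
      rw [this]
      have := Real.log_two_lt_d9
      linarith
    have h9 : Real.log 4 * Y / (Real.log Y / 2) ≤ 3 * (Y / Real.log Y) := by
      have e : Real.log 4 * Y / (Real.log Y / 2) = (2 * Real.log 4) * (Y / Real.log Y) := by
        field_simp
      rw [e]
      apply mul_le_mul_of_nonneg_right _ (by positivity)
      linarith
    calc (Nat.primeCounting Y : ℝ) ≤ _ := h7
      _ ≤ 3 * (Y / Real.log Y) + Y / Real.log Y := add_le_add h9 hsq
      _ = _ := by ring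
  · rw [div_lt_iff₀ hYpos] at a1
    rw [le_div_iff₀ hlogpos]
    linarith

/-- the real-variable part of the proof; `a` is the square root of `Y / log Y` -/
lemma real_part {C l ll d Λ Y u a π Θ SP N lm : ℝ}
    (hC : 1600 ≤ C) (hl : 1 ≤ l) (hll : 1 ≤ ll) (hlll : ll ≤ l)
    (hYle : Y ≤ C * (l ^ 2 / ll) + 1) (hYge : C * (l ^ 2 / ll) ≤ Y)
    (hd : 1 ≤ d) (hdl : Real.log d - Λ ≤ l) (hY : 2 ≤ Y) (hu : u = Real.log Y) (hull : ll ≤ u)
    (hu10 : 10 ≤ u) (ha0 : 0 ≤ a) (ha : a ^ 2 = Y / u) (hYu : 25600 ≤ Y / u)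
    (hπ0 : 0 ≤ π) (hπ : π ≤ 4 * (Y / u)) (hΘ : Y / 2 ≤ Θ) (hSP0 : 0 ≤ SP) (hSP : SP ≤ π * Y)
    (hlm : 0 ≤ lm) (hN : N = d * (2 * Y) ^ 2)
    (hmain : 2 * a * Θ + (a ^ 2 + π) * Λ ≤
      2 * (a + π) * (a + SP) * lm + d * (a + π) ^ 2 / N + (a ^ 2 + π) * Real.log N) :
    1 / (100 * (C + 1) ^ 3) * (ll / l) ^ 3 ≤ lm := by
  have hY0 : 0 < Y := by linarith
  have hu0 : 0 < u := by linarith
  have hl0 : 0 < l := by linarith
  have hll0 : 0 < ll := by linarith
  have hC0 : 0 < C := by linarith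
  set q := Y / u with hq
  have hq0 : 0 < q := by linarith
  have hqu : q * u = Y := by rw [hq]; field_simp
  have ha160 : 160 ≤ a := by
    by_contra h
    push Not at h
    nlinarith
  have haq : a ≤ q := by nlinarith
  have hq1 : 1 ≤ q := by linarith
  have hqY : 10 * q ≤ Y := by nlinarith
  -- sums
  have s1 : a + π ≤ 5 * q := by linarith
  have s1' : 0 ≤ a + π := by linarith
  have s2 : a + SP ≤ 5 * (q * Y) := by
    have h1 : π * Y ≤ 4 * q * Y := mul_le_mul_of_nonneg_right hπ hY0.le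
    have h2 : a ≤ q * Y := by nlinarith
    nlinarith
  have s3 : a ^ 2 + π ≤ 5 * q := by linarith
  have s3' : 0 ≤ a ^ 2 + π := by positivity
  have t1 : 2 * (a + π) * (a + SP) * lm ≤ 50 * (q ^ 2 * Y) * lm := by
    apply mul_le_mul_of_nonneg_right _ hlm
    have h1 := mul_le_mul s1 s2 (by linarith) (by linarith)
    nlinarith
  have t2 : d * (a + π) ^ 2 / N ≤ 1 := by
    rw [hN, div_le_one (by positivity)]
    have h1 : (a + π) ^ 2 ≤ (2 * Y) ^ 2 := by
      apply pow_le_pow_left₀ s1'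
      linarith
    exact mul_le_mul_of_nonneg_left h1 (by linarith)
  have t3 : Real.log N - Λ ≤ l + 4 * u := by
    rw [hN, Real.log_mul (by positivity) (by positivity), Real.log_pow,
      Real.log_mul (by norm_num) hY0.ne', ← hu]
    have := Real.log_two_lt_d9
    push_cast
    linarith
  have t4 : (a ^ 2 + π) * (Real.log N - Λ) ≤ 5 * q * (l + 4 * u) := by
    calc (a ^ 2 + π) * (Real.log N - Λ) ≤ (a ^ 2 + π) * (l + 4 * u) :=
          mul_le_mul_of_nonneg_left t3 s3'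
      _ ≤ 5 * q * (l + 4 * u) := mul_le_mul_of_nonneg_right s3 (by linarith)
  have t5 : a * Y ≤ 2 * a * Θ := by nlinarith
  -- `40 l ≤ a u`
  have k1 : 40 * l ≤ a * u := by
    have h1 : 1600 * l ^ 2 ≤ Y * u := by
      have h2 : C * (l ^ 2 / ll) * ll ≤ Y * u :=
        mul_le_mul hYge hull hll0.le hY0.le
      have h3 : C * (l ^ 2 / ll) * ll = C * l ^ 2 := by field_simp
      rw [h3] at h2
      nlinarith [sq_nonneg l]
    have h2 : (40 * l) ^ 2 ≤ (a * u) ^ 2 := by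
      have : (a * u) ^ 2 = Y * u := by
        rw [mul_pow, ha, hq]; field_simp
      rw [this]; nlinarith
    exact le_of_sq_le_sq h2 (by positivity)
  have t6 : 5 * q * (l + 4 * u) ≤ a * Y / 4 := by
    have h1 : 5 * q * (l + 4 * u) = (5 * l) * q + 20 * Y := by
      rw [← hqu]; ring
    have h2 : (5 * l) * q ≤ (a * u / 8) * q := mul_le_mul_of_nonneg_right (by linarith) hq0.le
    have h3 : (a * u / 8) * q = a * Y / 8 := by rw [← hqu]; ring
    nlinarith
  have t7 : 1 ≤ a * Y / 4 := by nlinarith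
  have m1 : a * Y / 2 ≤ 50 * (q ^ 2 * Y) * lm := by nlinarith
  have m2 : a ≤ 100 * q ^ 2 * lm := by
    have h1 : (a) * Y ≤ (100 * q ^ 2 * lm) * Y := by nlinarith
    exact le_of_mul_le_mul_right h1 hY0
  have m3 : 1 ≤ 100 * a ^ 3 * lm := by
    have h1 : a * 1 ≤ a * (100 * a ^ 3 * lm) := by
      have : a * (100 * a ^ 3 * lm) = 100 * (a ^ 2) ^ 2 * lm := by ring
      rw [this, ha]; linarith
    exact le_of_mul_le_mul_left h1 (by linarith)
  -- `a ≤ (C + 1) l / ll`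
  have m4 : a ≤ (C + 1) * (l / ll) := by
    have hr1 : 1 ≤ l / ll := by rw [le_div_iff₀ hll0]; linarith
    have h1 : Y ≤ (C + 1) * (l ^ 2 / ll) := by
      have h2 : 1 ≤ l ^ 2 / ll := by
        rw [le_div_iff₀ hll0]; nlinarith
      linarith
    have h2 : q ≤ (C + 1) * (l / ll) ^ 2 := by
      rw [hq, div_le_iff₀ hu0]
      calc Y ≤ (C + 1) * (l ^ 2 / ll) := h1
        _ = (C + 1) * (l / ll) ^ 2 * ll := by field_simp
        _ ≤ (C + 1) * (l / ll) ^ 2 * u := mul_le_mul_of_nonneg_left hull (by positivity)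
    have h3 : a ^ 2 ≤ ((C + 1) * (l / ll)) ^ 2 := by
      rw [ha]
      refine h2.trans ?_
      rw [mul_pow]
      apply mul_le_mul_of_nonneg_right _ (by positivity)
      nlinarith
    exact le_of_sq_le_sq h3 (by positivity)
  have m5 : a ^ 3 ≤ ((C + 1) * (l / ll)) ^ 3 := pow_le_pow_left₀ ha0 m4 3
  have m6 : 1 ≤ 100 * ((C + 1) * (l / ll)) ^ 3 * lm := by
    refine m3.trans (mul_le_mul_of_nonneg_right ?_ hlm)
    linarith
  have e1 : 1 / (100 * (C + 1) ^ 3) * (ll / l) ^ 3 = 1 / (100 * ((C + 1) * (l / ll)) ^ 3) := by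
    field_simp
  rw [e1, div_le_iff₀ (by positivity)]
  linarith

/-- **The bound in terms of the discriminant**, for an algebraic integer. -/
theorem field_bound : ∃ c : ℝ, 0 < c ∧ ∀ (K : Type) [Field K] [NumberField K] (α : K),
    IsIntegral ℤ α → α ≠ 0 → (∀ n : ℕ, 0 < n → α ^ n ≠ 1) → (∀ n : ℕ, 0 < n → CInj (α ^ n)) →
    ∀ T : ℝ, 0 < T → finrank ℚ K * Real.log (finrank ℚ K / T) ≤ LD α →
    c * (Real.log (Real.log (16 + T)) / Real.log (16 + T)) ^ 3 ≤ lam α := by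
  obtain ⟨Y1, hY12, hY1⟩ := exists_Y1
  set C : ℝ := max 1600 Y1 with hC
  have hC1600 : 1600 ≤ C := le_max_left _ _
  have hCY : (Y1:ℝ) ≤ C := le_max_right _ _
  refine ⟨1 / (100 * (C + 1) ^ 3), by positivity, ?_⟩
  intro K _ _ α hα h0 hroot hc T hT hLD
  classical
  set d := finrank ℚ K with hd
  have hd0 : 1 ≤ d := finrank_pos
  have hd1 : (1:ℝ) ≤ d := by exact_mod_cast hd0
  set l := Real.log (16 + T) with hl
  have hlog16 : (2.77:ℝ) < Real.log 16 := by
    have : Real.log 16 = 4 * Real.log 2 := by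
      rw [show (16:ℝ) = 2 ^ 4 by norm_num, Real.log_pow]; norm_num
    rw [this]
    have := Real.log_two_gt_d9
    linarith
  have hl16 : Real.log 16 ≤ l := Real.log_le_log (by norm_num) (by linarith)
  have hl277 : 2.77 ≤ l := by linarith
  have hl1 : 1 ≤ l := by linarith
  set ll := Real.log l with hll
  have hll1 : 1 ≤ ll := by
    rw [hll, Real.le_log_iff_exp_le (by linarith)]
    have := Real.exp_one_lt_d9
    linarith
  have hlll : ll ≤ l := by
    have := Real.log_le_sub_one_of_pos (show 0 < l by linarith)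
    linarith
  have hdl : Real.log d - Real.log (d / T) ≤ l := by
    rw [Real.log_div (by positivity) hT.ne']
    have : Real.log T ≤ l := Real.log_le_log hT (by linarith)
    linarith
  have hl2ll : 1 ≤ l ^ 2 / ll := by
    rw [le_div_iff₀ (by linarith)]; nlinarith
  have hl2l : l ≤ l ^ 2 / ll := by
    rw [le_div_iff₀ (by linarith)]; nlinarith
  set Y : ℕ := ⌈C * (l ^ 2 / ll)⌉₊ with hYdef
  have hYge : C * (l ^ 2 / ll) ≤ Y := Nat.le_ceil _
  have hYle : (Y:ℝ) ≤ C * (l ^ 2 / ll) + 1 := (Nat.ceil_lt_add_one (by positivity)).le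
  have hCl : C ≤ C * (l ^ 2 / ll) := by nlinarith
  have hY1Y : Y1 ≤ Y := by
    have h1 : (Y1:ℝ) ≤ Y := by linarith
    exact_mod_cast h1
  obtain ⟨b1, b2, b3, b4⟩ := hY1 Y hY1Y
  have hY2 : (2:ℝ) ≤ Y := by exact_mod_cast hY12.trans hY1Y
  have hull : ll ≤ Real.log Y := by
    apply Real.log_le_log (by linarith)
    nlinarith
  have ha0 : 0 ≤ Real.sqrt (Y / Real.log Y) := Real.sqrt_nonneg _
  have ha : Real.sqrt (Y / Real.log Y) ^ 2 = Y / Real.log Y := Real.sq_sqrt (by linarith)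
  set P := primesUpTo Y with hP
  have hPp : ∑ p ∈ P, (p : ℝ) ≤ P.card * Y := by
    calc ∑ p ∈ P, (p : ℝ) ≤ P.card • (Y:ℝ) := by
          apply Finset.sum_le_card_nsmul
          intro p hp
          exact_mod_cast (mem_primesUpTo hp).2
      _ = P.card * Y := by rw [nsmul_eq_mul]
  have hPp0 : 0 ≤ ∑ p ∈ P, (p : ℝ) := Finset.sum_nonneg fun _ _ => Nat.cast_nonneg _
  have hN1 : (1:ℝ) ≤ d * (2 * Y) ^ 2 := by
    have : (1:ℝ) ≤ (2 * Y) ^ 2 := by nlinarith
    nlinarith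
  have hc1 : CInj α := by
    have := hc 1 one_pos
    rwa [pow_one] at this
  have hmain := dob_disc hα h0 hroot hc1 P (fun p hp => (mem_primesUpTo hp).1)
    (fun p hp => hc p (mem_primesUpTo hp).1.pos) ha0 hN1 hLD
  rw [← hd] at hmain
  exact real_part hC1600 hl1 hll1 hlll hYle hYge hd1 hdl hY2 rfl hull b4 ha0 ha b3
    (Nat.cast_nonneg _) b2 b1 hPp0 hPp (lam_nonneg α) rfl hmain

end Pool.Agent.Y399.RD
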