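import Mathlib
import Pool.Agent.Y399.RD.B
import Pool.Agent.TH869.LS.S3
import Pool.Agent.H389R3.LP4

/-!
# Polynomials and number fields
-/

set_option autoImplicit false

open Finset Polynomial Module IntermediateField

namespace Pool.Agent.Y399.RD

open Pool.Agent.H388SL Pool.Agent.TH869.LS Pool.Agent.H389R3.LR Pool.Agent.H389R3.LP

/-- the absolute value of the discriminant of a monic polynomial -/
lemma abs_discr {f : ℤ[X]} (hf : f.Monic) (hdeg : 0 < f.natDegree) :
    |(f.discr : ℝ)| = ((f.map (Int.castRingHom ℂ)).roots.map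
      fun z => ‖(f.map (Int.castRingHom ℂ)).derivative.eval z‖).prod := by
  have hinj : Function.Injective (Int.castRingHom ℂ) := RingHom.injective_int _
  set g := f.map (Int.castRingHom ℂ) with hg
  have hgn : g.natDegree = f.natDegree := natDegree_map_eq_of_injective hinj f
  have h1 := resultant_deriv (f := f) (natDegree_pos_iff_degree_pos.mp hdeg)
  have h2 := congrArg (Int.castRingHom ℂ) h1
  rw [← resultant_map_map, ← Polynomial.derivative_map, ← hg] at h2
  have h3 := resultant_eq_prod_eval g g.derivative (f.natDegree - 1) (by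
    refine (natDegree_derivative_le g).trans ?_
    rw [hgn]) (IsAlgClosed.splits g)
  rw [hgn] at h3
  rw [h3, (hf.map _ : g.Monic).leadingCoeff, one_pow, one_mul, hf.leadingCoeff, mul_one, map_mul,
    map_pow, map_neg, map_one] at h2
  have h4 := congrArg norm h2
  rw [norm_mul, norm_pow, norm_neg, norm_one, one_pow, one_mul] at h4
  have h5 : ‖(Int.castRingHom ℂ) f.discr‖ = |(f.discr : ℝ)| := by
    rw [eq_intCast, Complex.norm_intCast]
  have h6 : ∀ s : Multiset ℂ, ‖(s.map (eval · g.derivative)).prod‖ =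
      (s.map fun z => ‖g.derivative.eval z‖).prod := by
    intro s
    induction s using Multiset.induction_on with
    | empty => simp
    | cons a s ih =>
      rw [Multiset.map_cons, Multiset.map_cons, Multiset.prod_cons, Multiset.prod_cons, norm_mul, ih]
  rw [← h5, ← h4]
  exact h6 _

lemma abs_discr_neg (f : ℤ[X]) (hdeg : 0 < f.natDegree) (hlc : |f.leadingCoeff| = 1) :
    |((-f).discr : ℝ)| = |(f.discr : ℝ)| := by
  have h1 := resultant_deriv (f := f) (natDegree_pos_iff_degree_pos.mp hdeg)
  have h2 := resultant_deriv (f := -f) (by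
    rw [degree_neg]; exact natDegree_pos_iff_degree_pos.mp hdeg)
  have e1 : -f = C (-1) * f := by simp
  rw [natDegree_neg, leadingCoeff_neg, derivative_neg, e1] at h2
  have e2 : -derivative f = C (-1) * derivative f := by simp
  rw [e2, resultant_C_mul_left, resultant_C_mul_right, h1, ← e1] at h2
  have h3 := congrArg Int.natAbs h2
  simp only [Int.natAbs_mul, Int.natAbs_pow, Int.natAbs_neg, Int.natAbs_one, one_pow, one_mul] at h3
  have h4 : f.leadingCoeff.natAbs = 1 := by
    rw [Int.abs_eq_natAbs] at hlc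
    exact_mod_cast hlc
  rw [h4, one_mul, one_mul] at h3
  have h5 : |((-f).discr : ℤ)| = |f.discr| := by
    rw [Int.abs_eq_natAbs, Int.abs_eq_natAbs, h3]
  exact_mod_cast h5

section
variable {K : Type*} [Field K] [NumberField K]

/-- the discriminant of the minimal polynomial -/
lemma LD_eq_log_discr {α : K} (hα : IsIntegral ℤ α) (hc : CInj α) {f : ℤ[X]}
    (hmin : minpoly ℤ α = f) (hdeg : 0 < f.natDegree)
    (hroots : (f.map (Int.castRingHom ℂ)).roots = (conjSet α).val) :
    LD α = Real.log |(f.discr : ℝ)| := by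
  classical
  have hm : f.Monic := hmin ▸ minpoly.monic hα
  rw [abs_discr hm hdeg, hroots]
  have e1 : ((conjSet α).val.map fun z => ‖(f.map (Int.castRingHom ℂ)).derivative.eval z‖).prod =
      ∏ z ∈ conjSet α, ‖(f.map (Int.castRingHom ℂ)).derivative.eval z‖ := rfl
  have e2 : ∏ z ∈ conjSet α, ‖(f.map (Int.castRingHom ℂ)).derivative.eval z‖ =
      ∏ σ : K →ₐ[ℚ] ℂ, ‖σ (dder α)‖ := by
    unfold conjSet
    rw [Finset.prod_image]
    · refine Finset.prod_congr rfl fun σ _ => ?_
      unfold dder
      rw [map_aevalZ, hmin, Polynomial.derivative_map, Polynomial.eval_map, Polynomial.aeval_def]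
      rfl
    · intro σ _ τ _ h
      exact hc h
  rw [e1, e2, Real.log_prod]
  · rfl
  · intro σ _
    exact norm_ne_zero_iff.mpr ((map_ne_zero σ).mpr (dder_ne_zero hα hc))

lemma cinj_of_adjoin {β : K} (h : ℚ⟮β⟯ = ⊤) : CInj β := by
  intro σ τ hst
  have h1 := (Field.primitive_element_iff_algHom_eq_of_eval ℚ ℂ
    (fun x => IsAlgClosed.splits _) β σ).mp h
  exact h1 τ hst

/-- the discriminant of the field is at most that of the element -/
lemma log_discr_le (α : NumberField.RingOfIntegers K) (h : ℚ⟮(α : K)⟯ = ⊤) :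
    Real.log |(NumberField.discr K : ℝ)| ≤ LD (α : K) := by
  have hc := cinj_of_adjoin h
  have hα : IsIntegral ℤ (α : K) := α.isIntegral_coe
  have hadj : Algebra.adjoin ℚ {algebraMap (NumberField.RingOfIntegers K) K α} = ⊤ := by
    have h1 : (ℚ⟮(α : K)⟯).toSubalgebra = ⊤ := by rw [h]; rfl
    rw [← h1]
    exact (adjoin_simple_toSubalgebra_of_isAlgebraic
      (Algebra.IsAlgebraic.isAlgebraic (R := ℚ) (α : K))).symm
  have h2 := aeval_derivative_mem_differentIdeal ℤ ℚ K α hadj
  set x : NumberField.RingOfIntegers K := aeval α (derivative (minpoly ℤ α)) with hx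
  have hxc : (x : K) = dder (α : K) := by
    rw [hx, dder]
    have h3 : minpoly ℤ (α : K) = minpoly ℤ α :=
      minpoly.algebraMap_eq (NumberField.RingOfIntegers.coe_injective) α
    rw [h3]
    exact (Polynomial.aeval_algebraMap_apply K α (derivative (minpoly ℤ α))).symm
  have hx0 : x ≠ 0 := by
    intro h0
    apply dder_ne_zero hα hc
    rw [← hxc, h0]; simp
  have h4 : Ideal.absNorm (differentIdeal ℤ (NumberField.RingOfIntegers K)) ∣
      Ideal.absNorm (Ideal.span {x}) :=
    Ideal.absNorm_dvd_absNorm_of_le ((Ideal.span_singleton_le_iff_mem _).mpr h2)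
  rw [NumberField.absNorm_differentIdeal K, Ideal.absNorm_span_singleton] at h4
  have hn0 : Algebra.norm ℤ x ≠ 0 := Algebra.norm_ne_zero_iff.mpr hx0
  have h5 : (NumberField.discr K).natAbs ≤ (Algebra.norm ℤ x).natAbs :=
    Nat.le_of_dvd (Int.natAbs_pos.mpr hn0) h4
  have h6 : |(NumberField.discr K : ℝ)| ≤ |(Algebra.norm ℤ x : ℝ)| := by
    have h7 : |NumberField.discr K| ≤ |Algebra.norm ℤ x| := by
      rw [Int.abs_eq_natAbs, Int.abs_eq_natAbs]; exact_mod_cast h5
    exact_mod_cast h7
  have h8 : |(Algebra.norm ℤ x : ℝ)| = ∏ σ : K →ₐ[ℚ] ℂ, ‖σ (dder (α : K))‖ := by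
    have h9 := Algebra.norm_eq_prod_embeddings ℚ ℂ (x : K)
    rw [← Algebra.coe_norm_int] at h9
    have h10 := congrArg norm h9
    rw [norm_prod, hxc] at h10
    rw [← h10, eq_ratCast, Rat.cast_intCast, Complex.norm_intCast]
  have h11 : 0 < |(NumberField.discr K : ℝ)| := by
    rw [abs_pos]
    exact_mod_cast NumberField.discr_ne_zero K
  refine (Real.log_le_log h11 h6).trans (le_of_eq ?_)
  rw [h8, Real.log_prod]
  · rfl
  · intro σ _
    exact norm_ne_zero_iff.mpr ((map_ne_zero σ).mpr (dder_ne_zero hα hc))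

end

/-- from `x ≤ log M` to `exp x ≤ M`, and the bound for the large measures -/
lemma small_const {T : ℝ} (hT : 0 < T) :
    0 ≤ Real.log (Real.log (16 + T)) / Real.log (16 + T) ∧
      Real.log (Real.log (16 + T)) / Real.log (16 + T) ≤ 1 := by
  have hlog16 : (2.77:ℝ) < Real.log 16 := by
    have : Real.log 16 = 4 * Real.log 2 := by
      rw [show (16:ℝ) = 2 ^ 4 by norm_num, Real.log_pow]; norm_num
    rw [this]
    have := Real.log_two_gt_d9
    linarith
  have hl16 : Real.log 16 ≤ Real.log (16 + T) := Real.log_le_log (by norm_num) (by linarith)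
  have h0 : 0 < Real.log (16 + T) := by linarith
  constructor
  · exact div_nonneg (Real.log_nonneg (by linarith)) h0.le
  · rw [div_le_one h0]
    have := Real.log_le_sub_one_of_pos h0
    linarith

/-- **Main theorem**, in logarithmic form -/
theorem main : ∃ c : ℝ, 0 < c ∧
    (∀ f : ℤ[X], Irreducible f → 1 < (f.map (Int.castRingHom ℂ)).mahlerMeasure →
      (∀ z w : ℂ, aeval z f = 0 → aeval w f = 0 → z ≠ w → ∀ m : ℕ, 0 < m → z ^ m ≠ w ^ m) →
      ∀ T : ℝ, 0 < T → ((f.natDegree : ℝ) / T) ^ f.natDegree ≤ |(f.discr : ℝ)| →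
      Real.exp (c * (Real.log (Real.log (16 + T)) / Real.log (16 + T)) ^ 3) ≤
        (f.map (Int.castRingHom ℂ)).mahlerMeasure) ∧
    (∀ (K : Type) [Field K] [NumberField K] (α : NumberField.RingOfIntegers K), α ≠ 0 →
      (∀ m : ℕ, 0 < m → α ^ m ≠ 1) → (∀ m : ℕ, 0 < m → ℚ⟮(α : K) ^ m⟯ = ⊤) →
      ∀ T : ℝ, 0 < T →
      ((finrank ℚ K : ℝ) / T) ^ finrank ℚ K ≤ |(NumberField.discr K : ℝ)| →
      Real.exp (c * (Real.log (Real.log (16 + T)) / Real.log (16 + T)) ^ 3) ≤
        ((minpoly ℤ (α : K)).map (Int.castRingHom ℂ)).mahlerMeasure) := by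
  obtain ⟨c1, hc1, hfield⟩ := field_bound
  have hlog2 : 0 < Real.log 2 := Real.log_pos (by norm_num)
  refine ⟨min c1 (Real.log 2), by positivity, ?_, ?_⟩
  · intro f hf hM hnd T hT hdisc
    obtain ⟨q0, q1⟩ := small_const hT
    set q := Real.log (Real.log (16 + T)) / Real.log (16 + T) with hq
    have hq3 : q ^ 3 ≤ 1 := pow_le_one₀ q0 q1
    have hq30 : 0 ≤ q ^ 3 := by positivity
    rcases le_or_gt 2 (f.map (Int.castRingHom ℂ)).mahlerMeasure with h2 | h2
    · refine le_trans ?_ h2
      rw [← Real.le_log_iff_exp_le two_pos]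
      have : min c1 (Real.log 2) ≤ Real.log 2 := min_le_right _ _
      nlinarith
    have key : ∀ g : ℤ[X], Irreducible g → g.Monic →
        1 < (g.map (Int.castRingHom ℂ)).mahlerMeasure →
        (∀ z w : ℂ, aeval z g = 0 → aeval w g = 0 → z ≠ w → ∀ m : ℕ, 0 < m → z ^ m ≠ w ^ m) →
        ((g.natDegree : ℝ) / T) ^ g.natDegree ≤ |(g.discr : ℝ)| →
        Real.exp (min c1 (Real.log 2) * q ^ 3) ≤ (g.map (Int.castRingHom ℂ)).mahlerMeasure := by
      intro g hg hgm hgM hgnd hgd
      have hdeg : 0 < g.natDegree := by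
        rw [Nat.pos_iff_ne_zero]
        intro h
        have := hgm.natDegree_eq_zero.mp h
        exact hg.not_isUnit (this ▸ isUnit_one)
      obtain ⟨L, _, _, α, hαi, hα0, hαroot, hfr, hMM, hroots, hmin, hαc⟩ :=
        exists_field g hg hgm hgM
      have hzero : ∀ σ : L →ₐ[ℚ] ℂ, aeval (σ α) g = 0 := by
        intro σ
        have h1 : aeval α g = 0 := by rw [← hmin]; exact minpoly.aeval ℤ α
        have h2 := map_aevalZ σ g α
        rw [h1, map_zero] at h2
        exact h2.symm
      have hinj : ∀ m : ℕ, 0 < m → CInj (α ^ m) := by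
        intro m hm0 σ τ h
        have h1 : (σ α) ^ m = (τ α) ^ m := by
          have : σ (α ^ m) = τ (α ^ m) := h
          rwa [map_pow, map_pow] at this
        by_contra hne
        have h2 : σ α ≠ τ α := fun h3 => hne (hαc h3)
        exact hgnd _ _ (hzero σ) (hzero τ) h2 m hm0 h1
      have hLD := LD_eq_log_discr hαi hαc hmin hdeg hroots
      have h3 := hfield L α hαi hα0 hαroot hinj T hT (by
        rw [hLD, hfr, ← Real.log_pow]
        exact Real.log_le_log (by positivity) hgd)
      have hM0 : 0 < (g.map (Int.castRingHom ℂ)).mahlerMeasure := by linarith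
      rw [← Real.le_log_iff_exp_le hM0, ← hMM]
      refine le_trans ?_ h3
      exact mul_le_mul_of_nonneg_right (min_le_left _ _) hq30
    obtain ⟨hlc, -⟩ := units_of_lt_two f hf hM h2
    have hdeg : 0 < f.natDegree := by
      rw [Nat.pos_iff_ne_zero]
      intro h
      have h3 := eq_C_of_natDegree_eq_zero h
      have h4 : f.leadingCoeff = f.coeff 0 := by rw [leadingCoeff, h]
      rw [h4] at hlc
      rw [h3, Polynomial.map_C, mahlerMeasure_const, eq_intCast, Complex.norm_intCast] at hM
      have h5 : (|f.coeff 0| : ℝ) = 1 := by exact_mod_cast hlc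
      linarith
    rcases (abs_eq (zero_le_one' ℤ)).mp hlc with h3 | h3
    · exact key f hf h3 hM hnd hdisc
    · have hMneg := MM_neg' f
      have hnd' : ∀ z w : ℂ, aeval z (-f) = 0 → aeval w (-f) = 0 → z ≠ w →
          ∀ m : ℕ, 0 < m → z ^ m ≠ w ^ m := by
        intro z w hz hw hne m hm
        rw [map_neg, neg_eq_zero] at hz hw
        exact hnd z w hz hw hne m hm
      have := key (-f)
        ((Associated.irreducible_iff (Associated.neg_left (Associated.refl f))).mpr hf)
        (by rw [Monic, leadingCoeff_neg, h3]; rfl) (by rw [hMneg]; exact hM) hnd'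
        (by rw [natDegree_neg, abs_discr_neg f hdeg hlc]; exact hdisc)
      rwa [hMneg] at this
  · intro K _ _ α hα0 hroot hgen T hT hdisc
    obtain ⟨q0, q1⟩ := small_const hT
    set q := Real.log (Real.log (16 + T)) / Real.log (16 + T) with hq
    have hq30 : 0 ≤ q ^ 3 := by positivity
    have hα : IsIntegral ℤ (α : K) := α.isIntegral_coe
    have hα0' : (α : K) ≠ 0 := by
      intro h
      exact hα0 (NumberField.RingOfIntegers.coe_eq_zero_iff.mp h)
    have hroot' : ∀ m : ℕ, 0 < m → (α : K) ^ m ≠ 1 := by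
      intro m hm h
      apply hroot m hm
      apply NumberField.RingOfIntegers.coe_injective
      rw [map_pow, map_one]
      exact h
    have hinj : ∀ m : ℕ, 0 < m → CInj ((α : K) ^ m) := fun m hm => cinj_of_adjoin (hgen m hm)
    have h1 : ℚ⟮(α : K)⟯ = ⊤ := by
      have := hgen 1 one_pos
      rwa [pow_one] at this
    have hc := cinj_of_adjoin h1
    have hn0 : 0 < finrank ℚ K := finrank_pos
    have h3 := hfield K (α : K) hα hα0' hroot' hinj T hT (by
      rw [← Real.log_pow]
      exact (Real.log_le_log (by positivity) hdisc).trans (log_discr_le α h1))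
    have hMM : Real.log ((minpoly ℤ (α : K)).map (Int.castRingHom ℂ)).mahlerMeasure =
        lam (α : K) := by
      have hpmap : (minpoly ℤ (α : K)).map (Int.castRingHom ℂ) =
          ∏ τ : K →ₐ[ℚ] ℂ, (X - C (τ (α : K))) := by
        rw [← minpoly_map_eq hc, minpoly.isIntegrallyClosed_eq_field_fractions' ℚ hα,
          Polynomial.map_map]
        rfl
      rw [hpmap]
      have h1 : (∏ τ : K →ₐ[ℚ] ℂ, (X - C (τ (α : K)))).mahlerMeasure =
          ∏ τ : K →ₐ[ℚ] ℂ, max 1 ‖τ (α : K)‖ := by
        rw [Finset.prod_eq_multiset_prod, prod_mahlerMeasure_eq_mahlerMeasure_prod,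
          Multiset.map_map, Finset.prod_eq_multiset_prod]
        congr 1
        refine Multiset.map_congr rfl fun τ _ => ?_
        rw [Function.comp_apply, mahlerMeasure_X_sub_C]
      rw [h1, Real.log_prod]
      · rfl
      · intro τ _
        have : (0:ℝ) < max 1 ‖τ (α : K)‖ := lt_of_lt_of_le one_pos (le_max_left _ _)
        exact this.ne'
    have hM0 : 0 < ((minpoly ℤ (α : K)).map (Int.castRingHom ℂ)).mahlerMeasure := by
      apply mahlerMeasure_pos_of_ne_zero
      exact (Polynomial.map_ne_zero_iff (RingHom.injective_int _)).mpr (minpoly.ne_zero hα)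
    rw [← Real.le_log_iff_exp_le hM0, hMM]
    refine le_trans ?_ h3
    exact mul_le_mul_of_nonneg_right (min_le_left _ _) hq30

end Pool.Agent.Y399.RD
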